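import Mathlib

/-!
# The m-eternal domination game

Guards stand on the vertices of a graph, at most one guard on each vertex; a configuration is the
finite set of the occupied vertices.
-/

namespace Q194.MEtern

variable {V : Type*} [DecidableEq V]

/-- `Move G C D`: the defender can pass from the configuration `C` to the configuration `D`, by
moving some of the guards, each of them along one edge (`f x` is the new place of the guard of
`x`; no two guards end on the same vertex). -/
def Move (G : SimpleGraph V) (C D : Finset V) : Prop :=
  ∃ f : V → V, (∀ x ∈ C, f x = x ∨ G.Adj x (f x)) ∧ Set.InjOn f C ∧ C.image f = D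

/-- `Survives G k C`: the defender, whose guards stand on `C`, can answer `k` successive attacks,
whatever the attacker does. (The attacker attacks a vertex `a`, then the defender moves to a
configuration which contains `a`.) -/
def Survives (G : SimpleGraph V) : ℕ → Finset V → Prop
  | 0, _ => True
  | k + 1, C => ∀ a : V, ∃ D : Finset V, Move G C D ∧ a ∈ D ∧ Survives G k D

/-- `C` is an m-eternal dominating set: the defender can respond to every attack forever, by
staying in some family `S` of configurations. -/
def MEternalDominating (G : SimpleGraph V) (C : Finset V) : Prop :=
  ∃ S : Set (Finset V), C ∈ S ∧ ∀ D ∈ S, ∀ a : V, ∃ E ∈ S, Move G D E ∧ a ∈ E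

/-- The m-eternal domination number. -/
noncomputable def gammaM (G : SimpleGraph V) : ℕ :=
  sInf {k | ∃ C : Finset V, C.card = k ∧ MEternalDominating G C}

end Q194.MEtern
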