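import Pool.Agent.Q194.MEtern.Table

/-!
# The graph with 14 vertices: the game
-/

namespace Q194.MEtern

abbrev V := Fin 14

/-- The graph. -/
def G14 : SimpleGraph V where
  Adj x y := x ≠ y ∧ nbT x y = true
  symm := ⟨by
    intro x y h
    refine ⟨h.1.symm, ?_⟩
    have h4 := check4_true
    simp only [check4, List.all_eq_true, List.mem_range, Bool.and_eq_true, beq_iff_eq] at h4
    rw [← (h4 x.1 x.2 y.1 y.2).1]
    exact h.2⟩
  loopless := ⟨fun x h => h.1 rfl⟩

theorem nbT_iff (x y : V) : nbT x y = true ↔ (y = x ∨ G14.Adj x y) := by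
  constructor
  · intro h
    by_cases hxy : y = x
    · exact Or.inl hxy
    · exact Or.inr ⟨fun e => hxy e.symm, h⟩
  · rintro (rfl | h)
    · have h4 := check4_true
      simp only [check4, List.all_eq_true, List.mem_range, Bool.and_eq_true, beq_iff_eq] at h4
      exact (h4 y.1 y.2 y.1 y.2).2
    · exact h.2

/-- the set of a mask -/
def S (m : ℕ) : Finset V := Finset.univ.filter fun i => Nat.testBit m i.1 = true

theorem set_eq (u v w : V) : ({u, v, w} : Finset V) = S (msk u v w) := by
  ext i
  simp only [Finset.mem_insert, Finset.mem_singleton, S, Finset.mem_filter, Finset.mem_univ,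
    true_and, msk, Nat.testBit_or, Nat.testBit_two_pow, Bool.or_eq_true, decide_eq_true_eq]
  constructor
  · rintro (h | h | h) <;> simp [h]
  · rintro ((h | h) | h)
    · exact Or.inl (Fin.ext h.symm)
    · exact Or.inr (Or.inl (Fin.ext h.symm))
    · exact Or.inr (Or.inr (Fin.ext h.symm))

/-- the set of an entry -/
def SE (e : List ℕ) : Finset V := S (rm e)

theorem entry (e : List ℕ) (he : e ∈ table) : ∃ x y z : V, x.1 = rx e ∧ y.1 = ry e ∧ z.1 = rz e ∧
    x ≠ y ∧ y ≠ z ∧ x ≠ z ∧ SE e = {x, y, z} := by
  have h := check0_true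
  simp only [check0, List.all_eq_true, Bool.and_eq_true, decide_eq_true_eq] at h
  obtain ⟨⟨⟨h1, h2⟩, h3⟩, h4⟩ := h e he
  refine ⟨⟨rx e, by omega⟩, ⟨ry e, by omega⟩, ⟨rz e, by omega⟩, rfl, rfl, rfl, ?_, ?_, ?_, ?_⟩
  · intro h'; have := congrArg Fin.val h'; simp at this; omega
  · intro h'; have := congrArg Fin.val h'; simp at this; omega
  · intro h'; have := congrArg Fin.val h'; simp at this; omega
  · rw [set_eq]; rfl

theorem move_three {x y z u v w : V} (hxy : x ≠ y) (hyz : y ≠ z) (hxz : x ≠ z)
    (huv : u ≠ v) (hvw : v ≠ w) (huw : u ≠ w) (h1 : nbT x u = true) (h2 : nbT y v = true)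
    (h3 : nbT z w = true) : Move G14 {x, y, z} {u, v, w} := by
  refine ⟨fun t => if t = x then u else if t = y then v else w, ?_, ?_, ?_⟩
  · intro t ht
    simp only [Finset.mem_insert, Finset.mem_singleton] at ht
    rcases ht with rfl | rfl | rfl
    · simp only [if_true]; exact (nbT_iff _ _).1 h1
    · simp only [if_true, if_neg hxy.symm]; exact (nbT_iff _ _).1 h2
    · simp only [if_neg hxz.symm, if_neg hyz.symm]; exact (nbT_iff _ _).1 h3
  · intro s hs t ht hst
    simp only [Finset.coe_insert, Finset.coe_singleton, Set.mem_insert_iff,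
      Set.mem_singleton_iff] at hs ht
    rcases hs with rfl | rfl | rfl <;> rcases ht with rfl | rfl | rfl <;>
      simp_all [hxy.symm, hyz.symm, hxz.symm, huv.symm, hvw.symm, huw.symm]
  · ext t
    simp only [Finset.mem_image, Finset.mem_insert, Finset.mem_singleton]
    constructor
    · rintro ⟨s, rfl | rfl | rfl, rfl⟩
      · simp
      · simp [hxy.symm]
      · simp [hxz.symm, hyz.symm]
    · rintro (rfl | rfl | rfl)
      · exact ⟨x, by simp⟩
      · exact ⟨y, by simp [hxy.symm]⟩
      · exact ⟨z, by simp [hxz.symm, hyz.symm]⟩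

theorem survives_entry : ∀ k : ℕ, ∀ e ∈ table, k + 2 ≤ rr e → Survives G14 k (SE e) := by
  intro k
  induction k with
  | zero => intro e _ _; trivial
  | succ k ih =>
    intro e he hr a
    have h := check3_true
    simp only [check3, List.all_eq_true, Bool.or_eq_true, Bool.and_eq_true, decide_eq_true_eq,
      List.mem_range, List.any_eq_true, beq_iff_eq, Bool.not_eq_true', beq_eq_false_iff_ne] at h
    rcases h e he with h | h
    · omega
    · obtain ⟨⟨⟨⟨⟨⟨⟨⟨⟨⟨h1, h2⟩, h3⟩, huv⟩, hvw⟩, huw⟩, hu⟩, hv⟩, hw⟩, ha⟩, f, hf, hfm, hfr⟩ :=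
        h a.1 a.2
      obtain ⟨x, y, z, hx, hy, hz, hxy, hyz, hxz, hS⟩ := entry e he
      set u : V := ⟨rc e a % 16, hu⟩ with hu'
      set v : V := ⟨rc e a / 16 % 16, hv⟩ with hv'
      set w : V := ⟨rc e a / 256, hw⟩ with hw'
      have hSf : SE f = {u, v, w} := by
        rw [SE, hfm, set_eq]
      refine ⟨SE f, ?_, ?_, ih f hf (by omega)⟩
      · rw [hS, hSf]
        refine move_three hxy hyz hxz ?_ ?_ ?_ ?_ ?_ ?_
        · intro h'; exact huv (congrArg Fin.val h')
        · intro h'; exact hvw (congrArg Fin.val h')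
        · intro h'; exact huw (congrArg Fin.val h')
        · rw [hx]; exact h1
        · rw [hy]; exact h2
        · rw [hz]; exact h3
      · rw [hSf]
        simp only [Finset.mem_insert, Finset.mem_singleton]
        rcases ha with (ha | ha) | ha
        · exact Or.inl (Fin.ext ha)
        · exact Or.inr (Or.inl (Fin.ext ha))
        · exact Or.inr (Or.inr (Fin.ext ha))

/-- a closed family of configurations -/
def Closed (F : Set (Finset V)) : Prop :=
  ∀ D ∈ F, ∀ a : V, ∃ E ∈ F, Move G14 D E ∧ a ∈ E

theorem dom3_of_closed {F : Set (Finset V)} (hF : Closed F) {u v w : V}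
    (h : ({u, v, w} : Finset V) ∈ F) : dom3 u v w = true := by
  have key : ∀ a : V, nbT u a = true ∨ nbT v a = true ∨ nbT w a = true := by
    intro a
    obtain ⟨E, -, ⟨f, hf1, -, hf3⟩, haE⟩ := hF _ h a
    rw [← hf3, Finset.mem_image] at haE
    obtain ⟨t, ht, rfl⟩ := haE
    have := (nbT_iff _ _).2 (hf1 t ht)
    simp only [Finset.mem_insert, Finset.mem_singleton] at ht
    rcases ht with rfl | rfl | rfl
    · exact Or.inl this
    · exact Or.inr (Or.inl this)
    · exact Or.inr (Or.inr this)
  simp only [dom3, List.all_eq_true, List.mem_range, Bool.or_eq_true]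
  intro a ha
  rcases key ⟨a, ha⟩ with h | h | h
  · exact Or.inl (Or.inl h)
  · exact Or.inl (Or.inr h)
  · exact Or.inr h

theorem not_mem_entry {F : Set (Finset V)} (hF : Closed F) : ∀ r : ℕ, ∀ e ∈ table, rr e = r →
    SE e ∉ F := by
  intro r
  induction r using Nat.strong_induction_on with
  | _ r ih =>
    intro e he hr hmem
    obtain ⟨x, y, z, hx, hy, hz, hxy, hyz, hxz, hS⟩ := entry e he
    have hra : ra e < 14 := by
      have h := check0_true
      simp only [check0, List.all_eq_true, Bool.and_eq_true, decide_eq_true_eq] at h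
      exact (h e he).2
    obtain ⟨E, hE, ⟨f, hf1, hf2, hf3⟩, haE⟩ := hF _ hmem ⟨ra e, hra⟩
    rw [hS] at hf1 hf2 hf3
    set u := f x with hu
    set v := f y with hv
    set w := f z with hw
    have mx : x ∈ ({x, y, z} : Finset V) := by simp
    have my : y ∈ ({x, y, z} : Finset V) := by simp
    have mz : z ∈ ({x, y, z} : Finset V) := by simp
    have huv : u ≠ v := fun h => hxy (hf2 (by exact_mod_cast mx) (by exact_mod_cast my) h)
    have hvw : v ≠ w := fun h => hyz (hf2 (by exact_mod_cast my) (by exact_mod_cast mz) h)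
    have huw : u ≠ w := fun h => hxz (hf2 (by exact_mod_cast mx) (by exact_mod_cast mz) h)
    have hE' : E = {u, v, w} := by
      rw [← hf3]
      simp [Finset.image_insert, hu, hv, hw]
    have hd : dom3 u v w = true := dom3_of_closed hF (hE' ▸ hE)
    have h := check2_true
    simp only [check2, List.all_eq_true, Bool.or_eq_true, Bool.and_eq_true, decide_eq_true_eq,
      List.mem_range, List.any_eq_true, beq_iff_eq, Bool.not_eq_true', beq_eq_false_iff_ne] at h
    have h1 := (nbT_iff _ _).2 (hf1 x mx)
    have h2 := (nbT_iff _ _).2 (hf1 y my)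
    have h3 := (nbT_iff _ _).2 (hf1 z mz)
    have := h e he u.1 u.2
    rw [← hx, ← hy, ← hz] at this
    rcases this with h' | h'
    · rw [h1] at h'; exact absurd h' (by decide)
    rcases h' v.1 v.2 with (h' | h') | h'
    · rw [h2] at h'; exact absurd h' (by decide)
    · exact huv (Fin.ext h')
    rcases h' w.1 w.2 with ((((h' | h') | h') | h') | h') | ⟨g, hg, hgr, hgm⟩
    · rw [h3] at h'; exact absurd h' (by decide)
    · exact huw (Fin.ext h').symm
    · exact hvw (Fin.ext h').symm
    · apply absurd haE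
      rw [hE']
      simp only [Finset.mem_insert, Finset.mem_singleton]
      intro hc
      rcases hc with hc | hc | hc
      · rw [← congrArg Fin.val hc] at h'; simp at h'
      · rw [← congrArg Fin.val hc] at h'; simp at h'
      · rw [← congrArg Fin.val hc] at h'; simp at h'
    · rw [hd] at h'; exact absurd h' (by decide)
    · refine ih (rr g) (by omega) g hg rfl ?_
      rw [SE, hgm, ← set_eq, ← hE']
      exact hE

theorem not_mem_three {F : Set (Finset V)} (hF : Closed F) {x y z : V} (hxy : x ≠ y)
    (hyz : y ≠ z) (hxz : x ≠ z) : ({x, y, z} : Finset V) ∉ F := by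
  intro hmem
  have hd := dom3_of_closed hF hmem
  have h := check1_true
  simp only [check1, List.all_eq_true, Bool.or_eq_true, List.mem_range, beq_iff_eq,
    Bool.not_eq_true', inTab, List.any_eq_true] at h
  rcases h x.1 x.2 y.1 y.2 z.1 z.2 with (((h | h) | h) | h) | ⟨e, he, hm⟩
  · exact hxy (Fin.ext h)
  · exact hyz (Fin.ext h)
  · exact hxz (Fin.ext h)
  · rw [hd] at h; exact absurd h (by decide)
  · refine not_mem_entry hF (rr e) e he rfl ?_
    rw [SE, hm, ← set_eq]
    exact hmem

theorem not_mem_two {F : Set (Finset V)} (hF : Closed F) (x y : V) : ({x, y} : Finset V) ∉ F := by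
  intro hmem
  have e1 : ({x, y} : Finset V) = {x, y, y} := by simp
  have hd := dom3_of_closed hF (e1 ▸ hmem)
  obtain ⟨E, hE, ⟨f, hf1, hf2, hf3⟩, haE⟩ := hF _ hmem 1
  have hE' : E = {f x, f y} := by
    rw [← hf3]
    simp [Finset.image_insert]
  have e2 : ({f x, f y} : Finset V) = {f x, f y, f y} := by simp
  have hd' : dom3 (f x) (f y) (f y) = true := by
    apply dom3_of_closed hF
    rw [← e2, ← hE']
    exact hE
  have h := check5_true
  simp only [check5, List.all_eq_true, Bool.or_eq_true, List.mem_range, beq_iff_eq,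
    Bool.not_eq_true', Bool.or_eq_false_iff, beq_eq_false_iff_ne] at h
  have h1 := (nbT_iff _ _).2 (hf1 x (by simp))
  have h2 := (nbT_iff _ _).2 (hf1 y (by simp))
  rcases h x.1 x.2 y.1 y.2 with h | h
  · rw [hd] at h; exact absurd h (by decide)
  rcases h (f x).1 (f x).2 with h | h
  · rw [h1] at h; exact absurd h (by decide)
  rcases h (f y).1 (f y).2 with (h | h) | h
  · rw [h2] at h; exact absurd h (by decide)
  · rw [hE'] at haE
    simp only [Finset.mem_insert, Finset.mem_singleton] at haE
    rcases haE with h' | h'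
    · exact h.1 (by rw [← h']; rfl)
    · exact h.2 (by rw [← h']; rfl)
  · rw [hd'] at h; exact absurd h (by decide)

theorem not_mem_empty {F : Set (Finset V)} (hF : Closed F) : (∅ : Finset V) ∉ F := by
  intro hmem
  obtain ⟨E, -, ⟨f, -, -, hf3⟩, haE⟩ := hF _ hmem 1
  rw [← hf3] at haE
  simp at haE

theorem not_mem_small {F : Set (Finset V)} (hF : Closed F) {C : Finset V} (hC : C.card ≤ 3) :
    C ∉ F := by
  interval_cases h : C.card
  · rw [Finset.card_eq_zero.1 h]; exact not_mem_empty hF
  · obtain ⟨x, rfl⟩ := Finset.card_eq_one.1 h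
    have : ({x} : Finset V) = {x, x} := by simp
    rw [this]
    exact not_mem_two hF x x
  · obtain ⟨x, y, -, rfl⟩ := Finset.card_eq_two.1 h
    exact not_mem_two hF x y
  · obtain ⟨x, y, z, hxy, hxz, hyz, rfl⟩ := Finset.card_eq_three.1 h
    exact not_mem_three hF hxy hyz hxz

theorem four_le_gammaM : 4 ≤ gammaM G14 := by
  apply le_csInf
  · refine ⟨Fintype.card V, Finset.univ, rfl, {Finset.univ}, rfl, ?_⟩
    intro D hD a
    rw [Set.mem_singleton_iff] at hD
    subst hD
    exact ⟨Finset.univ, rfl, ⟨id, fun x _ => Or.inl rfl, fun _ _ _ _ h => h, by simp⟩, by simp⟩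
  · rintro k ⟨C, rfl, F, hCF, hF⟩
    by_contra hlt
    exact not_mem_small hF (by omega) hCF

/-- a configuration with three guards which survives 14 attacks -/
def C0 : Finset V := {1, 4, 10}

theorem C0_survives : Survives G14 14 C0 := by
  have h : ∃ e ∈ table, rr e = 16 ∧ rm e = msk 1 4 10 := by decide +kernel
  obtain ⟨e, he, hr, hm⟩ := h
  have := survives_entry 14 e he (by omega)
  rw [SE, hm] at this
  rw [C0]
  have e3 := set_eq 1 4 10
  rw [e3]
  exact this

theorem check6_true : ((List.range 14).all fun v => (List.range 14).any fun u =>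
    nbT 12 u && nbT u v) = true := by decide +kernel

theorem G14_connected : G14.Connected := by
  have step : ∀ x y : V, nbT x y = true → G14.Reachable x y := by
    intro x y h
    rcases (nbT_iff x y).1 h with rfl | h
    · exact SimpleGraph.Reachable.refl _
    · exact h.reachable
  have key : ∀ v : V, G14.Reachable 12 v := by
    intro v
    have h := check6_true
    simp only [List.all_eq_true, List.mem_range, List.any_eq_true, Bool.and_eq_true] at h
    obtain ⟨u, hu, h1, h2⟩ := h v.1 v.2
    exact (step 12 ⟨u, hu⟩ h1).trans (step ⟨u, hu⟩ v h2)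
  haveI : Nonempty V := ⟨12⟩
  exact ⟨fun x y => (key x).symm.trans (key y)⟩

theorem main : ∃ (G : SimpleGraph (Fin 14)) (C : Finset (Fin 14)), G.Connected ∧
    C.card < gammaM G ∧ Survives G 14 C :=
  ⟨G14, C0, G14_connected, four_le_gammaM, C0_survives⟩

end Q194.MEtern
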